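import Mathlib
import Pool.Agent.Run7.h141.CE.Main
import Pool.Agent.TH314.PD.Final

/-! # Maps of given index which are linear in some of the variables -/

set_option autoImplicit false

namespace Pool.Agent.Run7.h643.MM

open MvPolynomial Pool.Agent.TH314.PD Module Pool.Agent.Y201.C3 Pool.Agent.R845.E3
open Pool.Agent.R845.T2 Pool.Agent.Run7.h141.CE

noncomputable section

variable {M : Type} [Field M] [Algebra ℂ M]

/-- multiples of a generic point -/
theorem scaleD {n d : ℕ} {F : MvPolynomial (Fin n) ℂ} (hF : F.IsHomogeneous d) {x : Fin n → M}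
    (hx : Gp F x) {μ : M} (hμ : μ ≠ 0) :
    Gp F (fun i => μ * x i) ∧ ratioField (fun i => μ * x i) = ratioField x := by
  refine ⟨⟨by rw [aeval_smul_form hF, hx.1, mul_zero], fun e P hP h0 => ?_⟩, ?_⟩
  · rw [aeval_smul_form hP] at h0
    exact hx.2 e P hP ((mul_eq_zero.1 h0).resolve_left (pow_ne_zero _ hμ))
  · have h1 : (fun i => (fun i => μ * x i) i / μ) = x := by
      funext i
      simp only
      rw [mul_div_cancel_left₀ _ hμ]
    conv_rhs => rw [← h1]
    rw [Pool.Agent.Y929.LI.ratioField_div _ hμ]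

/-- the coefficient of `X j` -/
def top {N : ℕ} (j : Fin N) (G : MvPolynomial (Fin N) ℂ) : MvPolynomial (Fin N) ℂ :=
  ∑ m ∈ G.support, if m j = 1 then monomial (m.erase j) (coeff m G) else 0

/-- the part without `X j` -/
def low {N : ℕ} (j : Fin N) (G : MvPolynomial (Fin N) ℂ) : MvPolynomial (Fin N) ℂ :=
  ∑ m ∈ G.support, if m j = 0 then monomial m (coeff m G) else 0

theorem eq_top_low {N : ℕ} (j : Fin N) (G : MvPolynomial (Fin N) ℂ) (hG : ∀ m ∈ G.support, m j ≤ 1) :
    G = X j * top j G + low j G := by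
  classical
  conv_lhs => rw [G.as_sum]
  rw [top, low, Finset.mul_sum, ← Finset.sum_add_distrib]
  refine Finset.sum_congr rfl fun m hm => ?_
  have h1 := hG m hm
  rcases Nat.lt_or_ge 0 (m j) with h | h
  · have h2 : m j = 1 := by omega
    rw [if_pos h2, if_neg (by omega), add_zero]
    have h3 : (X j : MvPolynomial (Fin N) ℂ) = monomial (Finsupp.single j 1) 1 := rfl
    have h4 : Finsupp.single j 1 + m.erase j = m := by
      have h5 := Finsupp.single_add_erase j m
      rwa [h2] at h5
    rw [h3, monomial_mul, one_mul, h4]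
  · have h2 : m j = 0 := by omega
    rw [if_neg (by omega), if_pos h2, mul_zero, zero_add]

theorem top_support {N : ℕ} (j : Fin N) (G : MvPolynomial (Fin N) ℂ) {m : Fin N →₀ ℕ}
    (hm : m ∈ (top j G).support) : m j = 0 ∧ ∃ m' ∈ G.support, m ≤ m' := by
  classical
  have h1 := support_sum hm
  obtain ⟨m', hm', h2⟩ := Finset.mem_biUnion.1 h1
  split_ifs at h2 with h3
  · have h4 := support_monomial_subset h2
    rw [Finset.mem_singleton] at h4
    subst h4
    refine ⟨Finsupp.erase_same, m', hm', fun l => ?_⟩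
    rcases eq_or_ne l j with h5 | h5
    · rw [h5, Finsupp.erase_same]
      exact Nat.zero_le _
    · rw [Finsupp.erase_ne h5]
  · rw [support_zero] at h2
    exact absurd h2 (Finset.notMem_empty _)

theorem low_support {N : ℕ} (j : Fin N) (G : MvPolynomial (Fin N) ℂ) {m : Fin N →₀ ℕ}
    (hm : m ∈ (low j G).support) : m j = 0 ∧ ∃ m' ∈ G.support, m ≤ m' := by
  classical
  have h1 := support_sum hm
  obtain ⟨m', hm', h2⟩ := Finset.mem_biUnion.1 h1
  split_ifs at h2 with h3
  · have h4 := support_monomial_subset h2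
    rw [Finset.mem_singleton] at h4
    exact ⟨by rw [h4]; exact h3, m', hm', h4.le⟩
  · rw [support_zero] at h2
    exact absurd h2 (Finset.notMem_empty _)

/-- a polynomial without `X j` -/
theorem aeval_update {N : ℕ} {R : Type} [CommRing R] [Algebra ℂ R] (j : Fin N) (G : MvPolynomial (Fin N) ℂ)
    (hG : ∀ m ∈ G.support, m j = 0) (y y' : Fin N → R) (hy : ∀ l, l ≠ j → y l = y' l) :
    aeval y G = aeval y' G := by
  rw [aeval_def, aeval_def, eval₂_eq', eval₂_eq']
  refine Finset.sum_congr rfl fun m hm => ?_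
  congr 1
  refine Finset.prod_congr rfl fun l _ => ?_
  rcases eq_or_ne l j with h | h
  · rw [h, hG m hm, pow_zero, pow_zero]
  · rw [hy l h]

/-- **Elimination of one variable** -/
theorem step {r N d : ℕ} {F : MvPolynomial (Fin (r + 1)) ℂ} (hF : F.IsHomogeneous d) (hd : 2 ≤ d) (hsm : Sm F)
    (j : Fin N) (G : Fin (r + 1) → MvPolynomial (Fin N) ℂ) (hG : ∀ i, ∀ m ∈ (G i).support, m j ≤ 1)
    (hGF : aeval G F = 0) (y : Fin N → M) (hx : Gp F fun i => aeval y (G i)) :
    d - 1 ∣ finrank (ratioField fun i => aeval y (G i)) M ∨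
    ∃ G' : Fin (r + 1) → MvPolynomial (Fin N) ℂ, aeval G' F = 0 ∧
      (∀ i, ∀ m ∈ (G' i).support, m j = 0 ∧ ∃ m' ∈ (G i).support, m ≤ m') ∧
      ∃ c : M, c ≠ 0 ∧ ∀ i, aeval y (G' i) = c * aeval y (G i) := by
  classical
  set al : Fin (r + 1) → MvPolynomial (Fin N) ℂ := fun i => top j (G i) with hal
  set be : Fin (r + 1) → MvPolynomial (Fin N) ℂ := fun i => low j (G i) with hbe
  have hGab : ∀ i, G i = X j * al i + be i := fun i => eq_top_low j (G i) (hG i)
  -- the line
  have hline : ∀ (R : Type) [CommRing R] [Algebra ℂ R] (y' : Fin N → R) (s : R),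
      aeval (fun i => s * aeval y' (al i) + aeval y' (be i)) F = 0 := by
    intro R _ _ y' s
    have h1 : ∀ i, s * aeval y' (al i) + aeval y' (be i) = aeval (Function.update y' j s) (G i) := by
      intro i
      rw [hGab i, map_add, map_mul, aeval_X, Function.update_self]
      rw [aeval_update j (al i) (fun m hm => (top_support j (G i) hm).1) y' (Function.update y' j s)
        (fun l hl => (Function.update_of_ne hl _ _).symm),
        aeval_update j (be i) (fun m hm => (low_support j (G i) hm).1) y' (Function.update y' j s)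
        (fun l hl => (Function.update_of_ne hl _ _).symm)]
    rw [show (fun i => s * aeval y' (al i) + aeval y' (be i)) = fun i => aeval (Function.update y' j s) (G i) from
      funext h1, ← comp_aeval_apply, hGF, map_zero]
  set a : Fin (r + 1) → M := fun i => aeval y (al i) with ha
  set b : Fin (r + 1) → M := fun i => aeval y (be i) with hb
  set x : Fin (r + 1) → M := fun i => aeval y (G i) with hxdef
  have hxab : ∀ i, x i = y j * a i + b i := by
    intro i
    show aeval y (G i) = _
    rw [hGab i, map_add, map_mul, aeval_X]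
  by_cases hli : LinearIndependent M ![x, a]
  · left
    refine Pool.Agent.Y201.LI.contact hF hd hsm x hx.1 hx.2 a hli 0 ?_
    rw [Polynomial.C_0, zero_mul]
    refine line_poly F x a 0 (fun τ => ?_)
    rw [Polynomial.eval_zero, ← hline M y (y j + τ)]
    congr 2
    funext i
    rw [hxab i]
    ring
  · right
    have hx0 : x ≠ 0 := by
      intro h
      exact coord_ne_zero hF hd x hx.2 0 (congrFun h 0)
    -- `a` is a multiple of `x`
    obtain ⟨c, hc⟩ : ∃ c : M, a = c • x := by
      rw [LinearIndependent.pair_iff' hx0] at hli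
      push Not at hli
      obtain ⟨c, hc⟩ := hli
      exact ⟨c, hc.symm⟩
    rcases eq_or_ne c 0 with hc0 | hc0
    · -- `G` does not change if the variable is zero
      refine ⟨be, ?_, fun i m hm => low_support j (G i) hm, 1, one_ne_zero, fun i => ?_⟩
      · have h1 := hline (MvPolynomial (Fin N) ℂ) X 0
        simp only [zero_mul, zero_add, aeval_X_left_apply] at h1
        exact h1
      · rw [one_mul]
        have h1 := hxab i
        have h2 : a i = 0 := by rw [hc, hc0]; simp
        rw [h2, mul_zero, zero_add] at h1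
        exact h1.symm
    · refine ⟨al, ?_, fun i m hm => top_support j (G i) hm, c, hc0, fun i => congrFun hc i⟩
      -- the leading coefficient
      have h1 : ∀ z : Fin N → ℂ, eval z (aeval al F) = 0 := by
        intro z
        have h2 : ∀ s : ℂ, aeval (fun i => aeval z (al i) + s * aeval z (be i)) F = 0 := by
          intro s
          rcases eq_or_ne s 0 with hs | hs
          · -- by continuity: a polynomial in s which vanishes for s ≠ 0
            set p : Polynomial ℂ := aeval (fun i => Polynomial.C (aeval z (al i)) +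
              Polynomial.X * Polynomial.C (aeval z (be i))) F with hp
            have hpe : ∀ t : ℂ, p.eval t = aeval (fun i => aeval z (al i) + t * aeval z (be i)) F := by
              intro t
              have h1 := MvPolynomial.comp_aeval_apply (R := ℂ) (fun i => Polynomial.C (aeval z (al i)) +
                Polynomial.X * Polynomial.C (aeval z (be i))) (Polynomial.aeval t : Polynomial ℂ →ₐ[ℂ] ℂ) F
              rw [Polynomial.coe_aeval_eq_eval] at h1
              rw [hp, h1]
              congr 2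
              funext i
              simp only [Polynomial.eval_add, Polynomial.eval_mul, Polynomial.eval_C, Polynomial.eval_X]
            have hp0 : p = 0 := by
              refine Polynomial.eq_zero_of_infinite_isRoot p ?_
              refine Set.Infinite.mono (s := {t : ℂ | t ≠ 0}) (fun t ht => ?_) (Set.Finite.infinite_compl (Set.finite_singleton 0))
              show p.eval t = 0
              rw [hpe]
              have h3 := hline ℂ z t⁻¹
              have h4 : (fun i => aeval z (al i) + t * aeval z (be i)) =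
                  fun i => t * (t⁻¹ * aeval z (al i) + aeval z (be i)) := by
                funext i
                rw [mul_add, ← mul_assoc, mul_inv_cancel₀ ht, one_mul]
              rw [h4, aeval_smul_form hF, h3, mul_zero]
            rw [← hpe, hp0, Polynomial.eval_zero]
          · have h3 := hline ℂ z s⁻¹
            have h4 : (fun i => aeval z (al i) + s * aeval z (be i)) =
                fun i => s * (s⁻¹ * aeval z (al i) + aeval z (be i)) := by
              funext i
              rw [mul_add, ← mul_assoc, mul_inv_cancel₀ hs, one_mul]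
            rw [h4, aeval_smul_form hF, h3, mul_zero]
        have h5 := h2 0
        simp only [zero_mul, add_zero] at h5
        rw [← comp_aeval_apply] at h5
        exact h5
      exact MvPolynomial.funext fun z => by rw [h1 z, map_zero]

/-- **Elimination of all linear variables** -/
theorem steps {r N d : ℕ} {F : MvPolynomial (Fin (r + 1)) ℂ} (hF : F.IsHomogeneous d) (hd : 2 ≤ d) (hsm : Sm F)
    (U : Finset (Fin N)) (y : Fin N → M) : ∀ (G : Fin (r + 1) → MvPolynomial (Fin N) ℂ),
    (∀ i, ∀ m ∈ (G i).support, ∀ j ∈ U, m j ≤ 1) → aeval G F = 0 → (Gp F fun i => aeval y (G i)) →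
    d - 1 ∣ finrank (ratioField fun i => aeval y (G i)) M ∨
    ∃ G' : Fin (r + 1) → MvPolynomial (Fin N) ℂ, aeval G' F = 0 ∧
      (∀ i, ∀ m ∈ (G' i).support, (∀ j ∈ U, m j = 0) ∧ ∃ m' ∈ (G i).support, m ≤ m') ∧
      ∃ c : M, c ≠ 0 ∧ ∀ i, aeval y (G' i) = c * aeval y (G i) := by
  classical
  induction U using Finset.induction_on with
  | empty =>
    intro G _ hGF _
    exact Or.inr ⟨G, hGF, fun i m hm => ⟨fun j hj => absurd hj (Finset.notMem_empty _), m, hm, le_rfl⟩, 1, one_ne_zero,
      fun i => (one_mul _).symm⟩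
  | insert j U hj ih =>
    intro G hG hGF hx
    rcases step hF hd hsm j G (fun i m hm => hG i m hm j (Finset.mem_insert_self _ _)) hGF y hx with
      h | ⟨G', h1, h2, c, hc, h3⟩
    · exact Or.inl h
    · have h4 : (fun i => aeval y (G' i)) = fun i => c * aeval y (G i) := funext h3
      obtain ⟨h5, h6⟩ := scaleD hF hx hc
      rcases ih G' (fun i m hm l hl => by
        obtain ⟨m', hm', hle⟩ := (h2 i m hm).2
        exact (hle l).trans (hG i m' hm' l (Finset.mem_insert_of_mem hl))) h1 (by rw [h4]; exact h5) with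
        h | ⟨G'', h7, h8, c', hc', h9⟩
      · left
        rw [h4, h6] at h
        exact h
      · refine Or.inr ⟨G'', h7, fun i m hm => ⟨fun l hl => ?_, ?_⟩, c' * c, mul_ne_zero hc' hc, fun i => ?_⟩
        · obtain ⟨h10, m', hm', hle⟩ := h8 i m hm
          rcases Finset.mem_insert.1 hl with rfl | hl
          · have := (h2 i m' hm').1
            have := hle l
            omega
          · exact h10 l hl
        · obtain ⟨-, m', hm', hle⟩ := h8 i m hm
          obtain ⟨-, m'', hm'', hle'⟩ := h2 i m' hm'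
          exact ⟨m'', hm'', hle.trans hle'⟩
        · rw [h9, h3, mul_assoc]

/-- the numerical inequality for degrees at most `d - 1` -/
theorem numeric {n d k : ℕ} (hn : 1 ≤ n) (hd : 2 ≤ d) (hk : k ≤ d - 1) : (n + 1) * (k - 1) ^ n < d * (d - 1) ^ n := by
  have h1 : (k - 1) ^ n ≤ (d - 2) ^ n := Nat.pow_le_pow_left (by omega) n
  refine lt_of_le_of_lt (Nat.mul_le_mul_left _ h1) ?_
  obtain ⟨e, rfl⟩ : ∃ e, d = e + 2 := ⟨d - 2, by omega⟩
  have h2 : e + 2 - 2 = e := by omega
  have h3 : e + 2 - 1 = e + 1 := by omega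
  rw [h2, h3]
  rcases Nat.eq_zero_or_pos e with he | he
  · subst he
    rw [zero_pow (by omega), mul_zero]
    positivity
  -- `(e + 1) ^ n ≥ e ^ n + n e ^ (n - 1)`
  have h4 : e ^ n + n * e ^ (n - 1) ≤ (e + 1) ^ n := by
    obtain ⟨k, rfl⟩ : ∃ k, n = k + 1 := ⟨n - 1, by omega⟩
    rw [Nat.add_sub_cancel]
    clear h1 hk hn
    induction k with
    | zero => simp
    | succ k ih =>
      calc e ^ (k + 1 + 1) + (k + 1 + 1) * e ^ (k + 1) ≤ (e + 1) * (e ^ (k + 1) + (k + 1) * e ^ k) := by
            have : e ^ (k + 1 + 1) + (k + 1 + 1) * e ^ (k + 1) = e * e ^ (k + 1) + (k + 2) * e ^ (k + 1) := by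
              rw [pow_succ e (k + 1)]; ring
            rw [this]
            have h5 : (e + 1) * (e ^ (k + 1) + (k + 1) * e ^ k) =
              e * e ^ (k + 1) + (k + 2) * e ^ (k + 1) + (k + 1) * e ^ k := by
              rw [pow_succ e k]; ring
            rw [h5]
            exact Nat.le_add_right _ _
        _ ≤ (e + 1) * (e + 1) ^ (k + 1) := Nat.mul_le_mul_left _ ih
        _ = (e + 1) ^ (k + 1 + 1) := by rw [pow_succ (e + 1) (k + 1)]; ring
  have h6 : (n + 1) * e ^ n < (e + 2) * (e ^ n + n * e ^ (n - 1)) := by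
    obtain ⟨k, rfl⟩ : ∃ k, n = k + 1 := ⟨n - 1, by omega⟩
    rw [Nat.add_sub_cancel]
    have h7 : (e + 2) * (e ^ (k + 1) + (k + 1) * e ^ k) = (k + 1 + 1) * e ^ (k + 1) +
      (e * e ^ (k + 1) + e ^ (k + 1) + 2 * (k + 1) * e ^ k) := by
      rw [pow_succ e k]; ring
    rw [h7]
    refine Nat.lt_add_of_pos_right ?_
    positivity
  exact lt_of_lt_of_le h6 (Nat.mul_le_mul_left _ h4)

/-- the degree in the variables of `J` -/
theorem jdeg {N k : ℕ} (J : Finset (Fin N)) (G : MvPolynomial (Fin N) ℂ)
    (h : ∀ m ∈ G.support, (∀ l ∉ J, m l = 0) ∧ ∑ l ∈ J, m l ≤ k) : G.totalDegree ≤ k := by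
  classical
  rw [totalDegree, Finset.sup_le_iff]
  intro m hm
  obtain ⟨h1, h2⟩ := h m hm
  refine le_trans (le_of_eq ?_) h2
  rw [Finsupp.sum_fintype _ _ (fun _ => rfl)]
  exact (Finset.sum_subset (Finset.subset_univ J) fun l _ hl => h1 l hl).symm

/-- **All linear variables removed.** -/
theorem reduce {n N d k : ℕ} {F : MvPolynomial (Fin (n + 2)) ℂ} (hF : F.IsHomogeneous d) (hd : 2 ≤ d) (hsm : Sm F)
    (J : Finset (Fin N)) (G : Fin (n + 2) → MvPolynomial (Fin N) ℂ)
    (hG : ∀ i, ∀ m ∈ (G i).support, (∀ l ∉ J, m l ≤ 1) ∧ ∑ l ∈ J, m l ≤ k) (hGF : aeval G F = 0)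
    (y : Fin N → M) (hx : Gp F fun i => aeval y (G i)) :
    d - 1 ∣ finrank (ratioField fun i => aeval y (G i)) M ∨
    ∃ G' : Fin (n + 2) → MvPolynomial (Fin N) ℂ, (∀ i, (G' i).totalDegree ≤ k) ∧ aeval G' F = 0 ∧
      (Gp F fun i => aeval y (G' i)) ∧
      ratioField (fun i => aeval y (G' i)) = ratioField fun i => aeval y (G i) := by
  classical
  rcases steps hF hd hsm Jᶜ y G (fun i m hm j hj => (hG i m hm).1 j (Finset.mem_compl.1 hj)) hGF hx with
    h | ⟨G', h1, h2, c, hc, h3⟩
  · exact Or.inl h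
  · have h4 : (fun i => aeval y (G' i)) = fun i => c * aeval y (G i) := funext h3
    obtain ⟨h5, h6⟩ := scaleD hF hx hc
    refine Or.inr ⟨G', fun i => jdeg J (G' i) fun m hm => ?_, h1, by rw [h4]; exact h5, by rw [h4, h6]⟩
    obtain ⟨h7, m', hm', hle⟩ := h2 i m hm
    exact ⟨fun l hl => h7 l (Finset.mem_compl.2 hl),
      (Finset.sum_le_sum fun l _ => hle l).trans (hG i m' hm').2⟩

/-- **Hypersurfaces of degree `d`.** -/
theorem partA {n N d k : ℕ} (hn : 1 ≤ n) (hd : 2 ≤ d) {F : MvPolynomial (Fin (n + 2)) ℂ}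
    (hF : F.IsHomogeneous d) (hsm : Sm F)
    (hk : k ≤ d - 1 ∨ (n + 1) * (k - 1) ^ n < d * (d - 1) ^ n)
    (J : Finset (Fin N)) (G : Fin (n + 2) → MvPolynomial (Fin N) ℂ)
    (hG : ∀ i, ∀ m ∈ (G i).support, (∀ l ∉ J, m l ≤ 1) ∧ ∑ l ∈ J, m l ≤ k) (hGF : aeval G F = 0)
    (y : Fin N → M) (hx : Gp F fun i => aeval y (G i)) :
    d - 1 ∣ finrank (ratioField fun i => aeval y (G i)) M := by
  classical
  have hk' : (n + 1) * (k - 1) ^ n < d * (d - 1) ^ n := by
    rcases hk with h | h
    · exact numeric hn hd h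
    · exact h
  rcases reduce hF hd hsm J G hG hGF y hx with h | ⟨G', h1, h2, h3, -⟩
  · exact h
  · exfalso
    have hdom : ∀ e (H : MvPolynomial (Fin (n + 2)) ℂ), H.IsHomogeneous e → aeval G' H = 0 → F ∣ H := by
      intro e H hH h0
      refine h3.2 e H hH ?_
      have h4 := congrArg (aeval y) h0
      rw [comp_aeval_apply, map_zero] at h4
      exact h4
    have hF0 : F ≠ 0 := ne_zero_of_smooth (m := n + 1) hsm
    obtain ⟨c, A, h5, h6⟩ := restrict_exists (by omega) hF hF0 G' h2 hdom
    obtain ⟨h7, h8⟩ := bound hd F hF hsm (fun i => aeval (sub c A) (G' i))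
      (fun i => aeval_sub_deg c A (G' i) (h1 i)) h5 h6
    have h9 := h7
    have h10 : 0 < finrank (ratioField fun i =>
        algebraMap (MvPolynomial (Fin n) ℂ) (FractionRing (MvPolynomial (Fin n) ℂ)) (aeval (sub c A) (G' i)))
        (FractionRing (MvPolynomial (Fin n) ℂ)) := finrank_pos
    have h11 := Nat.mul_le_mul_right (d * (d - 1) ^ n) h10
    omega

/-- **Cubic hypersurfaces.** -/
theorem partB {n N : ℕ} (hn : 1 ≤ n) {F : MvPolynomial (Fin (n + 2)) ℂ} (hF : F.IsHomogeneous 3) (hsm : Sm F)
    (J : Finset (Fin N)) (G : Fin (n + 2) → MvPolynomial (Fin N) ℂ)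
    (hG : ∀ i, ∀ m ∈ (G i).support, (∀ l ∉ J, m l ≤ 1) ∧ ∑ l ∈ J, m l ≤ 3) (hGF : aeval G F = 0)
    (y : Fin N → M) (hx : Gp F fun i => aeval y (G i))
    (hodd : Odd (finrank (ratioField fun i => aeval y (G i)) M)) : Sect F := by
  rcases reduce hF (by norm_num) hsm J G hG hGF y hx with h | ⟨G', h1, h2, h3, h4⟩
  · exfalso
    obtain ⟨a, ha⟩ := hodd
    have h' : 2 ∣ finrank (ratioField fun i => aeval y (G i)) M := h
    omega
  · exact main hn hF hsm N G' h1 h2 y h3 (by rw [h4]; exact hodd)

end

end Pool.Agent.Run7.h643.MM
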